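import Mathlib
import Pool.Agent.R748.OctSound

/-!
# MP_a2d1c1_co: a 5-chromatic unit-distance graph with 58 vertices in a normed plane

For the octagon `K = {|x| ≤ 4, |y| ≤ 4, |x| + |y| ≤ 6}` the normed plane with unit circle `∂K`
contains a unit-distance graph with 58 vertices (all of them points of the integer lattice) and
chromatic number 5.
-/

namespace R748.Oct

/-- The octagon. -/
def oct : Set (EuclideanSpace ℝ (Fin 2)) := {p | |p 0| ≤ 4 ∧ |p 1| ≤ 4 ∧ |p 0| + |p 1| ≤ 6}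

theorem oct_closed : IsClosed oct := by
  have h0 : Continuous fun p : EuclideanSpace ℝ (Fin 2) => |p 0| := by fun_prop
  have h1 : Continuous fun p : EuclideanSpace ℝ (Fin 2) => |p 1| := by fun_prop
  exact (isClosed_le h0 continuous_const).inter
    ((isClosed_le h1 continuous_const).inter (isClosed_le (h0.add h1) continuous_const))

theorem oct_compact : IsCompact oct := by
  refine Metric.isCompact_of_isClosed_isBounded oct_closed ?_
  refine (Metric.isBounded_closedBall (x := (0 : EuclideanSpace ℝ (Fin 2))) (r := 8)).subset ?_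
  intro p hp
  rw [mem_closedBall_zero_iff, EuclideanSpace.norm_eq, Fin.sum_univ_two]
  obtain ⟨h0, h1, _⟩ := hp
  rw [Real.norm_eq_abs, Real.norm_eq_abs]
  apply Real.sqrt_le_iff.mpr
  have := abs_nonneg (p 0)
  have := abs_nonneg (p 1)
  constructor <;> nlinarith

theorem oct_convex : Convex ℝ oct := by
  intro p hp q hq a b ha hb hab
  obtain ⟨p0, p1, p2⟩ := hp
  obtain ⟨q0, q1, q2⟩ := hq
  have e0 : |(a • p + b • q) 0| ≤ a * |p 0| + b * |q 0| := by
    simp only [PiLp.add_apply, PiLp.smul_apply, smul_eq_mul]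
    calc |a * p 0 + b * q 0| ≤ |a * p 0| + |b * q 0| := abs_add_le _ _
      _ = a * |p 0| + b * |q 0| := by rw [abs_mul, abs_mul, abs_of_nonneg ha, abs_of_nonneg hb]
  have e1 : |(a • p + b • q) 1| ≤ a * |p 1| + b * |q 1| := by
    simp only [PiLp.add_apply, PiLp.smul_apply, smul_eq_mul]
    calc |a * p 1 + b * q 1| ≤ |a * p 1| + |b * q 1| := abs_add_le _ _
      _ = a * |p 1| + b * |q 1| := by rw [abs_mul, abs_mul, abs_of_nonneg ha, abs_of_nonneg hb]
  refine ⟨?_, ?_, ?_⟩ <;> nlinarith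

theorem oct_interior : (interior oct).Nonempty := by
  have hopen : IsOpen {p : EuclideanSpace ℝ (Fin 2) | |p 0| < 1 ∧ |p 1| < 1} := by
    have h0 : Continuous fun p : EuclideanSpace ℝ (Fin 2) => |p 0| := by fun_prop
    have h1 : Continuous fun p : EuclideanSpace ℝ (Fin 2) => |p 1| := by fun_prop
    exact (isOpen_lt h0 continuous_const).inter (isOpen_lt h1 continuous_const)
  refine ⟨0, mem_interior.mpr ⟨_, ?_, hopen, by simp⟩⟩
  intro p hp
  obtain ⟨h0, h1⟩ := hp
  refine ⟨by linarith, by linarith, by linarith⟩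

theorem oct_symm : ∀ p ∈ oct, -p ∈ oct := by
  intro p hp
  obtain ⟨h0, h1, h2⟩ := hp
  refine ⟨?_, ?_, ?_⟩ <;> simp only [PiLp.neg_apply, abs_neg] <;> assumption

/-- The points of the octagon with `|x| = 4`, `|y| = 4` or `|x| + |y| = 6` have norm one. -/
theorem gauge_one {p : EuclideanSpace ℝ (Fin 2)} (hp : p ∈ oct)
    (h : |p 0| = 4 ∨ |p 1| = 4 ∨ |p 0| + |p 1| = 6) : gauge oct p = 1 := by
  apply le_antisymm (gauge_le_one_of_mem hp)
  by_contra hlt
  rw [not_le] at hlt
  have habs : Absorbent ℝ oct := absorbent_nhds_zero (by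
    rw [mem_nhds_iff]
    have hopen : IsOpen {p : EuclideanSpace ℝ (Fin 2) | |p 0| < 1 ∧ |p 1| < 1} := by
      have h0 : Continuous fun p : EuclideanSpace ℝ (Fin 2) => |p 0| := by fun_prop
      have h1 : Continuous fun p : EuclideanSpace ℝ (Fin 2) => |p 1| := by fun_prop
      exact (isOpen_lt h0 continuous_const).inter (isOpen_lt h1 continuous_const)
    refine ⟨_, ?_, hopen, by simp⟩
    intro q hq
    obtain ⟨h0, h1⟩ := hq
    exact ⟨by linarith, by linarith, by linarith⟩)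
  obtain ⟨r, hr0, hr1, hr⟩ := exists_lt_of_gauge_lt habs hlt
  rw [Set.mem_smul_set] at hr
  obtain ⟨q, ⟨q0, q1, q2⟩, rfl⟩ := hr
  simp only [PiLp.smul_apply, smul_eq_mul, abs_mul, abs_of_pos hr0] at h
  have := abs_nonneg (q 0)
  have := abs_nonneg (q 1)
  rcases h with h | h | h <;> nlinarith

/-- The lattice point with index `i`. -/
noncomputable def pt (i : Fin 58) : EuclideanSpace ℝ (Fin 2) := !₂[(px i : ℝ), (py i : ℝ)]

theorem pt_inj : Function.Injective pt := by
  intro i j h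
  have h0 : (pt i) 0 = (pt j) 0 := by rw [h]
  have h1 : (pt i) 1 = (pt j) 1 := by rw [h]
  simp only [pt, PiLp.toLp_apply, Matrix.cons_val_zero, Matrix.cons_val_one, Nat.cast_inj]
    at h0 h1
  exact p_inj i j h0 h1

theorem natdist (a b : ℕ) : (((a - b) + (b - a) : ℕ) : ℝ) = |(a : ℝ) - b| := by
  rcases le_total a b with h | h
  · have h' : (a : ℝ) ≤ b := by exact_mod_cast h
    rw [Nat.sub_eq_zero_of_le h, zero_add, Nat.cast_sub h, abs_sub_comm,
      abs_of_nonneg (sub_nonneg.mpr h')]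
  · have h' : (b : ℝ) ≤ a := by exact_mod_cast h
    rw [Nat.sub_eq_zero_of_le h, add_zero, Nat.cast_sub h, abs_of_nonneg (sub_nonneg.mpr h')]

theorem un_gauge {i j : Fin 58} (h : un i.1 j.1 = true) : gauge oct (pt i - pt j) = 1 := by
  simp only [un, Bool.and_eq_true, Bool.or_eq_true, Nat.beq_eq, Nat.ble_eq] at h
  have h0 : (pt i - pt j) 0 = (px i : ℝ) - px j := by simp [pt]
  have h1 : (pt i - pt j) 1 = (py i : ℝ) - py j := by simp [pt]
  generalize hX : (px i.1 - px j.1) + (px j.1 - px i.1) = X at h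
  generalize hY : (py i.1 - py j.1) + (py j.1 - py i.1) = Y at h
  have hX' : |(pt i - pt j) 0| = (X : ℝ) := by rw [h0, ← hX, natdist]
  have hY' : |(pt i - pt j) 1| = (Y : ℝ) := by rw [h1, ← hY, natdist]
  obtain ⟨⟨a1, a2, a3⟩, b⟩ := h
  have a1' : (X : ℝ) ≤ 4 := by exact_mod_cast a1
  have a2' : (Y : ℝ) ≤ 4 := by exact_mod_cast a2
  have a3' : (X : ℝ) + Y ≤ 6 := by exact_mod_cast a3
  have b' : (X : ℝ) = 4 ∨ (Y : ℝ) = 4 ∨ (X : ℝ) + Y = 6 := by exact_mod_cast b
  apply gauge_one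
  · refine ⟨?_, ?_, ?_⟩
    · rw [hX']; exact a1'
    · rw [hY']; exact a2'
    · rw [hX', hY']; exact a3'
  · rw [hX', hY']
    exact b'

/-- The abstract graph on the 58 indices. -/
def H : SimpleGraph (Fin 58) where
  Adj i j := un i.1 j.1 = true
  symm := ⟨fun i j h => un_symm i j h⟩
  loopless := ⟨fun i h => by rw [un_irrefl i] at h; exact absurd h (by decide)⟩

theorem H_col5 : H.Colorable 5 :=
  ⟨SimpleGraph.Coloring.mk (fun i => (⟨pc i.1, pc_lt i⟩ : Fin 5))
    (fun {i j} h he => un_pc i j h (by simpa using congrArg Fin.val he))⟩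

theorem H_not4 : ¬ H.Colorable 4 := by
  rintro ⟨C⟩
  exact no_col C (fun i j h => C.valid h)

end R748.Oct

namespace Pool.Agent.Results.MP_a2d1c1_co.Octagon58

open R748.Oct in
theorem result :
    ∃ K : Set (EuclideanSpace ℝ (Fin 2)),
      IsCompact K ∧ Convex ℝ K ∧ (interior K).Nonempty ∧ (∀ p ∈ K, -p ∈ K) ∧
      ∃ (V : Finset (EuclideanSpace ℝ (Fin 2))) (G : SimpleGraph V),
        V.card = 58 ∧
        (∀ x y : V, G.Adj x y → gauge K ((x : EuclideanSpace ℝ (Fin 2)) - y) = 1) ∧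
        G.chromaticNumber = 5 := by
  classical
  refine ⟨oct, oct_compact, oct_convex, oct_interior, oct_symm,
    Finset.univ.map ⟨pt, pt_inj⟩, ?_⟩
  have hex : ∀ x : (Finset.univ.map ⟨pt, pt_inj⟩ : Finset (EuclideanSpace ℝ (Fin 2))),
      ∃ i, pt i = x.1 := by
    rintro ⟨x, hx⟩
    simpa using hx
  choose f hf using hex
  refine ⟨H.comap f, by simp, ?_, ?_⟩
  · intro x y h
    rw [← hf x, ← hf y]
    exact un_gauge h
  · have h5 : (5 : ℕ∞) = ((4 : ℕ) : ℕ∞) + 1 := by norm_num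
    rw [h5, SimpleGraph.chromaticNumber_eq_iff_colorable_not_colorable]
    constructor
    · exact SimpleGraph.Colorable.of_hom ⟨f, fun {a b} h => h⟩ H_col5
    · intro h4
      apply H_not4
      have hmem : ∀ i : Fin 58, pt i ∈ (Finset.univ.map ⟨pt, pt_inj⟩ :
          Finset (EuclideanSpace ℝ (Fin 2))) := fun i => by simp
      have hfg : ∀ i : Fin 58, f ⟨pt i, hmem i⟩ = i := fun i => pt_inj (hf ⟨pt i, hmem i⟩)
      refine SimpleGraph.Colorable.of_hom ⟨fun i => ⟨pt i, hmem i⟩, fun {a b} h => ?_⟩ h4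
      rw [SimpleGraph.comap_adj, hfg, hfg]
      exact h

end Pool.Agent.Results.MP_a2d1c1_co.Octagon58
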